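import Mathlib
import Pool.Agent.Run7.h209.PE.NF

/-!
# The Tate conjecture over number fields for almost all the surfaces `D(t) y ^ 2 = f(x, t)`

Let `k₀` be a number field, `O₀` its ring of integers, `g ≥ 1`, `N ≥ 1`, and let
`f = x ^ (2 g + 1) + f_{2 g - 1} x ^ (2 g - 1) + ... + f_0` be a polynomial over `O₀[t]` with
`deg f_j ≤ 2 N (2 g + 1 - j)` whose discriminant is a squarefree polynomial in `t` over `k₀`. Let `k` be a finite
extension of `k₀`, for example `k = k₀`. The polynomial `r` over `O₀` formed by the coefficients of
`t ^ (2 N (2 g + 1 - j))` in the `f_j` is supposed to be irreducible modulo `P` for infinitely many primes `P` of `O₀`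
over which `k` has a prime of relative degree one. (By Chebotarev's theorem this means: the Galois group of `r` over
`k` contains a cycle of length `2 g + 1`. For `g = 1`, elliptic surfaces `D y ^ 2 = x ^ 3 + a x + b`, this means that the cubic
polynomial `r` is irreducible over `k`; for `2 g + 1` a prime number too.)

For a monic squarefree polynomial `D` over `O₀` prime to the discriminant let `X_D` be a smooth projective model of the
surface

`D(t) y ^ 2 = f(x, t)`.

It is geometrically simply connected: the fibration over the `t`-line has a section, and the fibres over the
zeros of `D` are trees of rational curves. (For `g = 1` it is an elliptic surface with `12 N` fibres `I₁`, and fibres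
`I₀*` over the zeros of `D` and, if `deg D` is odd, over infinity.)

Theorem. For every `η > 0` there is a nonzero ideal `M` of `O₀` such that, for all large `m`, for at least the
proportion `1 - η` of the monic polynomials `E` of degree `m` over `O₀ / M`, EVERY monic `D` over `O₀` congruent to `E`
modulo `M` has the following property (`IsGoodModuloPrime`): there is a reduction of the ring of integers of `k`
modulo a prime, onto a finite field `F` of odd characteristic, such that the reduction of `f` satisfies the
hypotheses over `F` (height, squarefree discriminant, irreducible at infinity), the reduction of `D` is squarefree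
and prime to the discriminant, and for the Jacobian `J` over `F(t)` of the reduced curve `D y ^ 2 = f(x)`:

1. `J(F(t))` is uniquely divisible by two, so it is finite of odd order (it is finitely generated);
2. all classes in `H ^ 1 (F(t), J)` killed by a power of `2` which are trivial over the completions of `F(t)` at all
  the maximal ideals of `F[t]` are zero.

So a random polynomial `D` over `O₀` of large degree with coefficients in a fixed box (a fixed number of complete
sets of residues modulo `M`) has this property with probability at least `1 - η`.

The property gives the Tate conjecture for the divisors on `X_D` over `k`, at all primes `ℓ`: `X_D` has good reduction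
at the prime of `k` given by the reduction; over `F` the rank is zero and the Brauer group has trivial `2`-primary
part, so by Artin, Tate and Milne all the Tate classes of the reduction are combinations of the classes of the
components of the fibres and of a section; these are the reductions of components of the fibres of `X_D` over an
algebraic closure of `k`, and the specialisation of the cohomology is an isomorphism, so a class fixed by the Galois
group of `k` is a Galois invariant combination of classes of divisors. The Tate conjecture for `X_D` over `k`
implies it over all the fields between `k₀` and `k`.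

The case in which `f` is a product of linear factors `x - b_i(t)` (and `k` contains a square root of `-1`, and half of
the degrees `m` are left out) is the starting file `HyperellipticSurfaces`. For a fixed degree `m` of `D` and
coefficients of growing height, results of this kind follow from big monodromy (Katz) and the specialisation
theorems of Serre, Terasoma and Cohen; here the degree of `D` and the Betti numbers of `X_D` tend to infinity while
the coefficients of `D` are in a fixed box, and the exceptional set is controlled by congruences.

Proof. The exact law of the 2-Selmer groups over a fixed finite field (project PRL of helper286, see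
`ExactLawOfTwists`): modulo each of the infinitely many primes `P`, if the degree is large, at least `1 / 5` of the
`D` which are squarefree and prime to the discriminant modulo `P` have trivial 2-Selmer group, and these are at
least one half of all if `P` is large. That these proportions do not tend to zero with `P` is the point. Different
primes are independent (Chinese remainder theorem).
-/

set_option autoImplicit false
set_option linter.all false

namespace Pool.Agent.Results.MP_1bad5e_ag.AlmostAllTwists

open Polynomial Filter NumberField IsDedekindDomain
open scoped Classical
open Pool.Agent.Y713.Jac (J)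
open Pool.Agent.N352.Sha (UniquelyDivisible ShaTrivial)
open Run7.h209.PE (InFamily HasHeight discriminant atInfinity twist)

/-- The image of `f` under a homomorphism of the coefficients. -/
noncomputable def image {A B : Type} [CommRing A] [CommRing B] (r : A →+* B) (f : A[X][X]) :
    B[X][X] := f.map (mapRingHom r)

/-- The polynomials `D` over the field `F`, squarefree and prime to the discriminant of `f`, such that for
the Jacobian `J` of `D y ^ 2 = f(x)` over `K = F(t)` the group `J(K)` is uniquely divisible by two and
the 2-primary part of the group of the classes in `H ^ 1 (K, J)` which are trivial over the completions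
of `K` at the maximal ideals of `F[t]` is zero. -/
def GoodTwists {F : Type} [Field F] (g : ℕ) (f : F[X][X]) : Set F[X] :=
  {D | Squarefree D ∧ IsCoprime D (discriminant g f) ∧
    UniquelyDivisible 2 (J 2 (twist (RatFunc F) f D) (RatFunc F)) ∧
    ShaTrivial 2 (twist (RatFunc F) f D) F[X]}

/-- There is a reduction `r` of `B` onto a finite field `F` of odd characteristic such that the reduction
of `f` is in the family and the reduction of `D` is in `GoodTwists`. -/
def IsGoodModuloPrime {B : Type} [CommRing B] (g N : ℕ) (f : B[X][X]) (D : B[X]) : Prop :=
  ∃ (F : Type) (_ : Field F) (_ : Finite F) (r : B →+* F), Function.Surjective r ∧ (2 : F) ≠ 0 ∧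
    InFamily g N (image r f) ∧ D.map r ∈ GoodTwists g (image r f)

section

variable {k₀ : Type} [Field k₀] [NumberField k₀] (k : Type) [Field k] [NumberField k] [Algebra k₀ k]

/-- The polynomial `r` over `O₀` is irreducible modulo the prime `P`, and there is a homomorphism
`O → O₀ / P` which extends the natural one, that is a prime of `k` of relative degree one over `P`. -/
def IsInert (r : (𝓞 k₀)[X]) (P : HeightOneSpectrum (𝓞 k₀)) : Prop :=
  Irreducible (r.map (Ideal.Quotient.mk P.asIdeal)) ∧ ∃ ρ : 𝓞 k →+* 𝓞 k₀ ⧸ P.asIdeal,
    ρ.comp (algebraMap (𝓞 k₀) (𝓞 k)) = Ideal.Quotient.mk P.asIdeal

/-- The monic polynomials `E` of degree `m` over `O₀ / M` such that all monic polynomials over `O₀`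
congruent to `E` modulo `M` are good modulo a prime of `k`. -/
def goodClasses (g N : ℕ) (f : (𝓞 k₀)[X][X]) (M : Ideal (𝓞 k₀)) (m : ℕ) : Set (𝓞 k₀ ⧸ M)[X] :=
  {E | E.Monic ∧ E.natDegree = m ∧ ∀ D : (𝓞 k₀)[X], D.Monic →
    D.map (Ideal.Quotient.mk M) = E →
      IsGoodModuloPrime g N (image (algebraMap (𝓞 k₀) (𝓞 k)) f) (D.map (algebraMap (𝓞 k₀) (𝓞 k)))}

end

theorem result {k₀ k : Type} [Field k₀] [NumberField k₀] [Field k] [NumberField k] [Algebra k₀ k]
    {g N : ℕ} (hg : 1 ≤ g) (hN : 1 ≤ N) {f : (𝓞 k₀)[X][X]} (hf : HasHeight g (2 * N) f)
    (hs : Squarefree ((discriminant g f).map (algebraMap (𝓞 k₀) k₀)))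
    (hr : {P | IsInert k (atInfinity g (2 * N) f) P}.Infinite) (η : ℝ) (hη : 0 < η) :
    ∃ M : Ideal (𝓞 k₀), M ≠ ⊥ ∧ ∀ᶠ m : ℕ in atTop,
      (1 - η) * (Nat.card (𝓞 k₀ ⧸ M) : ℝ) ^ m ≤ ((goodClasses k g N f M m).ncard : ℝ) :=
  Run7.h209.PE.main hg hN hf hs hr hη

end Pool.Agent.Results.MP_1bad5e_ag.AlmostAllTwists
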