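import Mathlib
import Pool.Agent.Run7.h209.PE.Fam

/-!
# The Tate conjecture for the surfaces `D(t) y ^ 2 = f(x, t)` over a fixed finite field: exact law of the descent

Let `k` be a finite field of odd characteristic, `K = k(t)`, `g ≥ 1`, `N ≥ 1`, and let
`f = x ^ (2 g + 1) + f_{2 g - 1} x ^ (2 g - 1) + ... + f_0` be a polynomial over `k[t]` with
`deg f_j ≤ 2 N (2 g + 1 - j)` such that the discriminant of `f` is a squarefree polynomial in `t` and the
polynomial over `k` formed by the coefficients of `t ^ (2 N (2 g + 1 - j))` in the `f_j` is irreducible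
(`InFamily`). There is no hypothesis on Galois groups. For `D` in `k[t]`, squarefree and prime to the
discriminant, let `X_D` be a smooth projective model of the surface

`D(t) y ^ 2 = f(x, t)`,

fibred over the `t`-line with the generic fibre the hyperelliptic curve `C_D` of genus `g` over `K` (for `g = 1` an
elliptic surface with fibres of type `I₁` over the zeros of the discriminant and `I₀*` over the zeros of `D`, and over
infinity if `deg D` is odd). The fibration has a section, and the fibres over the zeros of `D` are trees of
rational curves, so `X_D` is geometrically simply connected. The second Betti number of `X_D` and its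
transcendental part are unbounded: both grow linearly with `deg D`.

Let `J_D` be the Jacobian of `C_D`. `Selmer` is its 2-Selmer group, the group of the classes in `H ^ 1 (K, J_D[2])` which
are zero in `H ^ 1 (K_v, J_D)` for all the places `v` of `K`, also at infinity; `2 ^ d(D)` is its order.

Theorem. Fix `k`, `f` and `u ≠ 0` in `k`; let `D` run through the squarefree polynomials of degree `m` with leading
coefficient `u` prime to the discriminant of `f`, and let `m` tend to infinity.

(1) (`Meaning`) For each `D` the group `J_D(K)` has no point of order two, `J_D(K) / 2 J_D(K)` is finite and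
`2 ^ d(D) = #(J_D(K) / 2 J_D(K)) #Sha(J_D)[2]`; if `d(D) = 0` then `J_D(K)` is uniquely divisible by two and the
2-primary part of the Tate-Shafarevich group of `J_D` is zero.

(2) (`HasLaw`) The proportion of the `D` with `d(D) = d` tends to `limitLaw d`, that is to
`∏_{j ≥ 0} (1 + 2 ^ (-j))⁻¹ ∏_{i = 1}^d 2 / (2 ^ i - 1)`, for all `d`: `0.2097`, `0.4194`, `0.2796`, `0.0799`, ...

(3) (`HasMoments`) For each function `φ` of at most exponential growth the average of `φ(d(D))` tends to
`∑_d limitLaw d φ(d)`. So the average of `d(D)` tends to `∑_j 1 / (2 ^ j + 1) = 1.2645...`, the average of `(2 ^ d(D)) ^ j`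
tends to `∏_{i = 1}^j (2 ^ i + 1)`, and half of the `d(D)` are even (`Values`).

Consequences, by theorems of Lang and Néron, Artin, Tate, Milne, Gordon (not formalised): `J_D(K)` is finitely
generated; the group of the Tate classes in `H ^ 2 (X_D, Q_ℓ(1))` over `k` is generated by the classes of the divisors
if and only if `Sha(J_D)[2 ^ ∞]` is finite, for all `ℓ` at once (the characteristic included). Hence:

* `X_D` satisfies the Tate conjecture over `k` for a set of `D` of lower density at least `0.2097` (`q` fixed, in each
  genus); for these `D` all the Tate classes over `k` come from the section and the components of the fibres;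
* for each `D` there are at most `d(D)` Tate classes over `k` which are linearly independent modulo those, so their
  average number is at most `1.2645`, although the dimension of the cohomology tends to infinity; also the average
  rank of the Mordell-Weil groups is at most `1.2645`.

The theorem was proved in project PRL of helper286 with the pieces of many seats (helpers 56, 68, 81, 160, 209, 212,
215, 216, 270, 303, 352, 382, 416, 502, 518, 547, 646, 688, 704, 711, 760, 779, 781, 784, 803, 811, 824, 847,
875, 886, 908, 957, 973): the Selmer condition at the primes which divide `D` is written with quadratic symbols in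
`k(t)[x] / (f)`; by reciprocity the dimensions of the Selmer groups form a Markov chain if primes are joined to
`D` (equidistribution of the symbols: Weil's bound for the curves of the factorisations of `f`); its stationary law is
that of Poonen and Rains; at last the random local classes are replaced by the natural ones.
-/

set_option autoImplicit false
set_option linter.all false

namespace Pool.Agent.Results.MP_1bad5e_ag.ExactLawOfTwists

open Polynomial Filter
open scoped Classical Topology
open Run7.h286.SelDef (Meaning selmerRank)
open Run7.h209.PE (InFamily discriminant twist)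

/-- The squarefree polynomials `D` of degree `m` with leading coefficient `u` which are prime to the
discriminant of `f`. -/
def Twists {k : Type} [Field k] (g : ℕ) (f : k[X][X]) (u : k) (m : ℕ) : Set k[X] :=
  {D | D.leadingCoeff = u ∧ D.natDegree = m ∧ Squarefree D ∧ IsCoprime D (discriminant g f)}

/-- The limit law. -/
noncomputable def limitLaw (d : ℕ) : ℝ :=
  (∏' j : ℕ, (1 + (1 / 2 : ℝ) ^ j))⁻¹ * ∏ i ∈ Finset.range d, (2 : ℝ) / (2 ^ (i + 1) - 1)

/-- The expectation of `φ` for the limit law. -/
noncomputable def expectation (φ : ℕ → ℝ) : ℝ := ∑' d, limitLaw d * φ d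

section defs

variable {k : Type} [Field k] (K : Type) [Field K] [Algebra k[X] K] [IsFractionRing k[X] K]
  (g : ℕ) (f : k[X][X]) (u : k)

/-- The dimension `d(D)` of the 2-Selmer group of the Jacobian of `D y ^ 2 = f(x)` over `K = k(t)`. -/
noncomputable def dimension (D : k[X]) : ℕ := selmerRank k (twist K f D)

/-- The proportion of the `D` with `d(D) = d` tends to `limitLaw d`. -/
def HasLaw : Prop :=
  ∀ d : ℕ, Tendsto (fun m : ℕ => (({D ∈ Twists g f u m | dimension K f D = d}).ncard : ℝ) /
    ((Twists g f u m).ncard : ℝ)) atTop (𝓝 (limitLaw d))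

/-- The average of `φ(d(D))` tends to the expectation of `φ`, for all `φ` of at most exponential growth. -/
def HasMoments : Prop :=
  ∀ φ : ℕ → ℝ, (∃ C y : ℝ, ∀ d, |φ d| ≤ C * y ^ d) →
    Tendsto (fun m : ℕ => (∑ᶠ D ∈ Twists g f u m, φ (dimension K f D)) /
      ((Twists g f u m).ncard : ℝ)) atTop (𝓝 (expectation φ))

end defs

/-- Values of the limit law. -/
structure Values : Prop where
  zero : |limitLaw 0 - 0.20971| < 0.00001
  mean : |expectation (fun d => d) - 1.2645| < 0.0001
  sum : HasSum (fun j : ℕ => 1 / ((2 : ℝ) ^ j + 1)) (expectation fun d => d)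
  power : ∀ j : ℕ, expectation (fun d => ((2 : ℝ) ^ d) ^ j) = ∏ i ∈ Finset.Icc 1 j, ((2 : ℝ) ^ i + 1)
  parity : expectation (fun d => (-1 : ℝ) ^ d) = 0

open Run7.h286.PL in
theorem limit_eq (d : ℕ) : wt d / (∑' i, wt i) = limitLaw d := by
  obtain ⟨-, -, h, -⟩ := Run7.h160.PL.num
  rw [limitLaw, h.tprod_eq, div_eq_inv_mul]
  rfl

open Run7.h286.PL in
theorem Lw_eq (φ : ℕ → ℝ) : Lw φ = expectation φ := by
  rw [Lw, expectation, div_eq_inv_mul, ← tsum_mul_left]
  congr 1
  ext d
  rw [← limit_eq, div_eq_inv_mul, mul_assoc]

theorem values : Values := by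
  obtain ⟨-, h1, h2, h3, h4⟩ := Run7.h547.PL.qid
  refine ⟨?_, ?_, ?_, fun j => ?_, ?_⟩
  · obtain ⟨-, -, -, h5, -⟩ := Run7.h160.PL.num
    rw [← limit_eq]
    have h6 : Run7.h286.PL.wt 0 = 1 := by simp [Run7.h286.PL.wt]
    rw [h6]
    rw [abs_lt] at h5
    have h7 : (0 : ℝ) < ∑' d, Run7.h286.PL.wt d := by linarith [h5.1]
    have h8 : (1 : ℝ) / 4.76847 < 1 / ∑' d, Run7.h286.PL.wt d :=
      one_div_lt_one_div_of_lt h7 (by linarith [h5.2])
    have h9 : 1 / ∑' d, Run7.h286.PL.wt d < (1 : ℝ) / 4.76845 :=
      one_div_lt_one_div_of_lt (by norm_num) (by linarith [h5.1])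
    rw [abs_lt]
    constructor
    · refine lt_trans ?_ (sub_lt_sub_right h8 _)
      norm_num
    · refine lt_trans (sub_lt_sub_right h9 _) ?_
      norm_num
  · rw [← Lw_eq]
    exact h4
  · rw [← Lw_eq]
    exact h3
  · rw [← Lw_eq]
    have h5 := h1 j
    rw [show (fun d : ℕ => ((2 : ℝ) ^ d) ^ j) = fun d => ((2 : ℝ) ^ j) ^ d by
      funext d
      rw [← pow_mul, ← pow_mul, mul_comm]]
    rw [h5]
    exact Finset.prod_congr rfl fun i _ => add_comm _ _
  · rw [← Lw_eq]
    exact h2

theorem result {k : Type} [Field k] [Finite k] (h2 : (2 : k) ≠ 0) {g N : ℕ} (hg : 1 ≤ g)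
    (hN : 1 ≤ N) {f : k[X][X]} (hf : InFamily g N f) (K : Type) [Field K] [Algebra k[X] K]
    [IsFractionRing k[X] K] {u : k} (hu : u ≠ 0) :
    (∀ m : ℕ, ∀ D ∈ Twists g f u m, Meaning k (twist K f D)) ∧
      HasLaw K g f u ∧ HasMoments K g f u ∧ Values := by
  have hF := hf.fm hg hN h2
  refine ⟨fun m D hD => (Run7.h286.SelDef.one_tw hF K hu hD).2, fun d => ?_, fun φ hφ => ?_, values⟩
  · have h := Run7.h209.PE.law hF K hu d
    rw [limit_eq] at h
    exact h
  · have h := Run7.h209.PE.mean hF K hu φ hφ
    rw [Lw_eq] at h
    exact h

end Pool.Agent.Results.MP_1bad5e_ag.ExactLawOfTwists
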