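import Mathlib
import Pool.Agent.N140.RO.Rk
import Pool.Agent.Run7.h316.EQ.Sv
import Pool.Agent.Run7.h316.EQ.Ext

/-!
# The Tate conjecture at 2 in all the loci of elliptic surfaces of rank at least two given by
# `p = α q + β r`: prime coefficients and all dominated families, over all number fields at once

Let `K` be a number field, `ω` a basis of its ring of integers, `N ≥ 5` odd. The coordinates of the
coefficients of two polynomials `q`, `r` of degree at most `N` over the ring of integers form a vector of
integers. Let `k'` be a finite extension of `K` and let `α`, `β`, `μ` be nonzero elements of `k'` such that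
`((α + β)² - 1) ((α - β)² - 1) = μ²`. Put `p = α q + β r` and let `X` be the elliptic surface over the
projective line with the generic fibre

`E : y² = x (x - (p² - q²)) (x - (p² - r²))`.

A vector is good for `α`, `β` over `k'` (`GoodOver`, the notion of the files `RandomOrbits` and
`EquidistributedSequences`) if `q` and `r` are coprime, the six polynomials `p ± q`, `p ± r`, `q ± r` are
irreducible over `k'` of degree `N`, and for EVERY extension field `L` of `k'` in which the elements which are
algebraic over `k'` have minimal polynomials with solvable Galois groups the Tate conjecture for divisors at the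
prime 2 holds for the surface over `L`, and `E(L(t))` contains two linearly independent points.

Let `c w`, `w ∈ Ω`, be a family of vectors and `S M ⊂ Ω` finite sets; `Usually`: for ALL finite extensions `k'`
of `K` in an algebraic closure and ALL loci over `k'` (all `α`, `β`, `μ` in `k'` as above) the proportion of the
`w ∈ S M` for which `c w` is not good for `α`, `β` over `k'` tends to zero, `M → ∞`.

**Theorem.** The property `Usually` is robust (`Pool.Agent.Run7.h316.EQ.Robust`):

(1) All dominated families have it: there are `C`, `A`, `M` such that for all squarefree `q'` prime to `M` at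
most the proportion `C (q' / φ(q')) ^ A q' ^ (-ρ) + o(1)` of the vectors is in a given class modulo `q'`, where
`ρ` is the number of the coordinates. (All equidistributed sequences, along arbitrary sets of times, are
dominated, and all their subfamilies of positive lower density.)
(2) - (4) Metric sequences: `(⌊f_{i,l}(x_i)⌋)_i` for Koksma sequences `f_{i,0}, f_{i,1}, …`,
`(⌊a_{i,l} x_i⌋)_i` for arbitrary sequences of different integers (or of real numbers with a gap) and
`(⌊ξ_i x_i ^ (k_l)⌋)_i`, for almost all `x`.
(5) Random orbits of groups of integral matrices of determinant one which generate `SL(ℤ/q')` for all `q'`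
prime to some number (all Zariski dense groups, possibly of infinite index).
(6) Generalised polynomials `(⌊∑_t a_{i,t} l ^ t⌋)_i` at the integers and at the primes `l` of `(M, 2M]`.
(7) PRIME COEFFICIENTS: the vectors of prime numbers `≤ M`.

The file `EquidistributedSequences` of helper918 contains (1) with `A = 0` for all `q'` (equidistributed
sequences), (2), (3), (4) and (6), the file `RandomOrbits` of helper140 contains (5). New are (7) and (1) in
general: the vectors of primes are not equidistributed, the proportion of the vectors in a class modulo `q'`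
can be `(q' / φ(q')) ^ ρ` times as large as it should be, which is unbounded, and the sets of the vectors
which are not good must be smaller than pronull.

Proof. The local criterion of helper601 and the sieve of helper140: each of the finitely many conditions is
satisfied by a positive proportion of the residue vectors modulo the large primes of degree one of `k'`, so the
set of the vectors which are not good for `α`, `β` over `k'` is very null
(`Pool.Agent.Run7.h316.EQ.VeryNull`): for all `D`, `η > 1` and `ε > 0` there is a squarefree number `q'` prime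
to `D` with `q' ≤ η φ(q')` such that at most the proportion `ε` of the classes modulo `q'` contain elements of
it. Metric sequences: `Pool.Agent.N24.KM` (helpers 24, 344, 617, 199, 764, 432, 286); random orbits:
`Pool.Agent.N24.RW` (helpers 24, 123, 195, 300, 543, 765); generalised polynomials: `Pool.Agent.N666.TM`
(helper666); `Pool.Agent.N918.EQ` (helper918); primes: the prime number theorem for arithmetic progressions
(helper923).
-/

set_option autoImplicit false

namespace Pool.Agent.Results.MP_1bad5e_ag.PrimeCoefficients

open Polynomial NumberField Pool.Agent.N140.RO Pool.Agent.N140.RO.Rk Pool.Agent.Run7.h316.EQ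

/-- The coordinates of the coefficients of the pair `(q, r)`. -/
abbrev Idx (N : ℕ) (J : Type) : Type := (Fin (N + 1) ⊕ Fin (N + 1)) × J

section

variable {K : Type} [Field K] {J : Type} [Fintype J] (ω : Module.Basis J ℤ (𝓞 K)) {N : ℕ}

/-- The polynomial `q` over the ring of integers with the coordinates `c`. -/
noncomputable def polQ (c : Idx N J → ℤ) : K[X] :=
  ∑ j : Fin (N + 1), C (algebraMap (𝓞 K) K (vec ω c (Sum.inl j))) * X ^ (j : ℕ)

/-- The polynomial `r` over the ring of integers with the coordinates `c`. -/
noncomputable def polR (c : Idx N J → ℤ) : K[X] :=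
  ∑ j : Fin (N + 1), C (algebraMap (𝓞 K) K (vec ω c (Sum.inr j))) * X ^ (j : ℕ)

/-- The vector `c` is good for `α`, `β` over the extension `E` of `K`. -/
def GoodOver (E : Type) [Field E] [Algebra K E] (α β : E) (c : Idx N J → ℤ) : Prop :=
  Good E N α β ((polQ ω c).map (algebraMap K E)) ((polR ω c).map (algebraMap K E))

/-- The condition on `α` and `β`. -/
def Locus (E : Type) [Field E] (α β μ : E) : Prop :=
  α ≠ 0 ∧ β ≠ 0 ∧ μ ≠ 0 ∧ ((α + β) ^ 2 - 1) * ((α - β) ^ 2 - 1) = μ ^ 2

end

open Pool.Agent.X243.Gen in
theorem very {K : Type} [Field K] {J : Type} [Fintype J] (ω : Module.Basis J ℤ (𝓞 K)) {N : ℕ}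
    (hN : 5 ≤ N) (hodd : Odd N) (E : Type) [Field E] [NumberField E] [Algebra K E] {α β μ : E}
    (hL : Locus E α β μ) : VeryNull {c : Idx N J → ℤ | ¬ GoodOver ω E α β c} := by
  classical
  obtain ⟨hα, hβ, hμ, hsq⟩ := hL
  have hDD : (0 : ℝ) < 1 / ((Pool.Agent.X243.Sol.DD N * Pool.Agent.X243.Sol.DD N : ℕ) : ℝ) := by
    have h1 : 0 < Pool.Agent.X243.Sol.DD N := by
      have := Pool.Agent.X243.Sol.D3_pos N
      unfold Pool.Agent.X243.Sol.DD
      have h3 : 0 < 4 * N := by omega
      positivity
    have h2 : (0 : ℝ) < ((Pool.Agent.X243.Sol.DD N * Pool.Agent.X243.Sol.DD N : ℕ) : ℝ) := by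
      exact_mod_cast Nat.mul_pos h1 h1
    positivity
  have h2 : (2 : 𝓞 E) ≠ 0 := two_ne_zero
  -- a common denominator
  obtain ⟨A, B, D, hD, hA, hB⟩ : ∃ A B D : 𝓞 E, D ≠ 0 ∧
      α * algebraMap (𝓞 E) E D = algebraMap (𝓞 E) E A ∧
      β * algebraMap (𝓞 E) E D = algebraMap (𝓞 E) E B := by
    obtain ⟨⟨a, d⟩, ha⟩ := IsLocalization.surj (nonZeroDivisors (𝓞 E)) α
    obtain ⟨⟨b, e⟩, hb⟩ := IsLocalization.surj (nonZeroDivisors (𝓞 E)) β
    refine ⟨a * e, b * d, d * e, mul_ne_zero (nonZeroDivisors.ne_zero d.2)
      (nonZeroDivisors.ne_zero e.2), ?_, ?_⟩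
    · rw [map_mul, map_mul, ← mul_assoc, ha]
    · rw [map_mul, map_mul, mul_comm (algebraMap (𝓞 E) E (d : 𝓞 E)), ← mul_assoc, hb]
  have hDk : algebraMap (𝓞 E) E D ≠ 0 :=
    (map_ne_zero_iff _ (IsFractionRing.injective (𝓞 E) E)).2 hD
  have hA0 : A ≠ 0 := by
    rintro rfl
    rw [map_zero] at hA
    exact mul_ne_zero hα hDk hA
  have hB0 : B ≠ 0 := by
    rintro rfl
    rw [map_zero] at hB
    exact mul_ne_zero hβ hDk hB
  have hc₀ : cst (rl A D) (rm B D) 4 5 ≠ 0 := cst_ne (r_ne (D := D) hA0 hB0) (r_det h2 A B D)
  refine Sv.veryNull_of (σ := Option (Fin 6 × Fin 3)) (fun s => {c : Idx N J → ℤ |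
      ∀ P ∈ Two2.Big E (2 * N + 2) (cst (rl A D) (rm B D) 4 5),
      (fun i => Ideal.Quotient.mk P (algebraMap (𝓞 K) (𝓞 E) (vec ω c i))) ∉
        Lev N (rl A D) (rm B D) 4 5 s P}) _ (fun s => ?_) ?_
  · refine Sv.very_sieve2 ω (2 * N + 2) hc₀ (fun P => Lev N (rl A D) (rm B D) 4 5 s P) hDD
      (fun P hP => ?_)
    have h1 := Lev_card (by omega : 3 ≤ N) (rl A D) (rm B D) 4 5 s hP
    have hc : Fintype.card (Fin (N + 1) ⊕ Fin (N + 1)) = 2 * N + 2 := by
      rw [Fintype.card_sum, Fintype.card_fin]
      omega
    have hD' : (0 : ℝ) < ((Pool.Agent.X243.Sol.DD N * Pool.Agent.X243.Sol.DD N : ℕ) : ℝ) := by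
      by_contra hle
      have h0 := le_antisymm (not_lt.1 hle) (Nat.cast_nonneg _)
      rw [h0, div_zero] at hDD
      exact lt_irrefl _ hDD
    rw [hc, one_div, inv_mul_le_iff₀ hD']
    exact_mod_cast h1
  · intro c hc
    by_contra hno
    apply hc
    simp only [Set.mem_ofPred_eq, not_exists, not_forall, not_not] at hno
    set z : Pairs N (𝓞 E) := (fun j => algebraMap (𝓞 K) (𝓞 E) (vec ω c (Sum.inl j)),
      fun j => algebraMap (𝓞 K) (𝓞 E) (vec ω c (Sum.inr j))) with hz
    have hzv : toV z = fun i => algebraMap (𝓞 K) (𝓞 E) (vec ω c i) := by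
      funext i
      rcases i with j | j <;> rfl
    have key := good_of (R := 𝓞 E) (k := E) h2 hD hA hB hα hβ hμ hsq (b := 2 * N + 2)
      (c := cst (rl A D) (rm B D) 4 5) hN hodd (z := z) (fun s => by
        obtain ⟨P, hP, h⟩ := hno s
        refine ⟨P, hP, ?_⟩
        rw [hzv]
        exact h)
    have e1 : poly E z.1 = (polQ ω c).map (algebraMap K E) := by
      rw [poly, polQ, Polynomial.map_sum]
      refine Finset.sum_congr rfl fun j _ => ?_
      rw [Polynomial.map_mul, Polynomial.map_pow, map_C, map_X, hz,
        ← IsScalarTower.algebraMap_apply, ← IsScalarTower.algebraMap_apply]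
    have e2 : poly E z.2 = (polR ω c).map (algebraMap K E) := by
      rw [poly, polR, Polynomial.map_sum]
      refine Finset.sum_congr rfl fun j _ => ?_
      rw [Polynomial.map_mul, Polynomial.map_pow, map_C, map_X, hz,
        ← IsScalarTower.algebraMap_apply, ← IsScalarTower.algebraMap_apply]
    rw [e1, e2] at key
    exact key

/-- For ALL finite extensions `E` of `K` and ALL loci over `E` the proportion of the `w` in `S M` for which
the vector `c w` is not good tends to zero, `M → ∞`. -/
def Usually {K : Type} [Field K] {J : Type} [Fintype J] (ω : Module.Basis J ℤ (𝓞 K)) (N : ℕ)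
    (Ω : Type) (S : ℕ → Finset Ω) (c : Ω → Idx N J → ℤ) : Prop :=
  ∀ E : IntermediateField K (AlgebraicClosure K), FiniteDimensional K E → ∀ α β μ : E, Locus E α β μ →
    ∀ ε : ℝ, 0 < ε → ∃ M₀ : ℕ, ∀ M : ℕ, M₀ ≤ M →
      (({w : Ω | w ∈ S M ∧ ¬ GoodOver ω E α β (c w)}.ncard : ℕ) : ℝ) ≤ ε * (S M).card

theorem result {K : Type} [Field K] [NumberField K] {J : Type} [Fintype J] [DecidableEq J]
    (ω : Module.Basis J ℤ (𝓞 K)) {N : ℕ} (hN : 5 ≤ N) (hodd : Odd N) : Robust (Usually ω N) := by
  have hne : Nonempty (Idx N J) := by
    have : Nonempty J := ω.index_nonempty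
    exact ⟨(Sum.inl 0, Classical.arbitrary J)⟩
  refine robust_ext (K := K) (fun E [Field E] => E × E × E)
    (fun E [Field E] hE => by have := hE; exact inferInstance)
    (fun E [Field E] [Algebra K E] t c => Locus E t.1 t.2.1 t.2.2 → GoodOver ω E t.1 t.2.1 c)
    (fun E [Field E] [NumberField E] [Algebra K E] t => ?_) _ fun Ω S c hR => ?_
  · by_cases hL : Locus E t.1 t.2.1 t.2.2
    · refine ((very ω hN hodd E hL).mono ?_).strong
      intro c hc hg
      exact hc fun _ => hg
    · refine (veryNull_empty.mono ?_).strong
      intro c hc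
      exact hc fun h => absurd h hL
  · intro E hE α β μ hL ε hε
    obtain ⟨M₀, hM⟩ := hR E hE (α, β, μ) ε hε
    refine ⟨M₀, fun M hMM => le_trans ?_ (hM M hMM)⟩
    refine Nat.cast_le.2 (Set.ncard_le_ncard ?_ ((S M).finite_toSet.subset fun n hn => hn.1))
    rintro w ⟨h5, h6⟩
    exact ⟨h5, fun h7 => h6 (h7 hL)⟩

end Pool.Agent.Results.MP_1bad5e_ag.PrimeCoefficients
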