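import Pool.Agent.Run7.h735.NR.Main

/-!
# The Tate conjecture for surfaces which at one place are branched along a rational curve with non-split double points

Let `K` be a number field (or any finitely generated field; only a Frobenius element is used), and let `S` be a smooth
projective surface over `K` which at one place `v`, with a residue field `κ` of `q ≡ 1` modulo `p ^ s` elements, `p` an odd
prime, is a smooth model of

  `w ^ (p ^ s) = F(x, y)`,

where `F = 0` is the plane curve `C` with a parametrization `t ↦ (a(t), b(t))` (`IsImage`).  Suppose that no point of `C`
has more than two parameters, and that the double points are *not split*: the two parameters of a double point are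
conjugate over `κ`.  Let `G` be the set of the minimal polynomials of the parameters of the double points; their degrees
are even (`NonSplit`), and `g ∈ G` of degree `2 D` belongs to a closed double point of degree `D`.  Let `P` be the part of
`H^2(S)` for the nontrivial characters of the covering group, or the part of it orthogonal to the curves at infinity; the
orthogonal complement of `P` is spanned by curves.

**Theorem.**
1. Let `K'` be a finite extension of `K` with a place of residue degree `m` above `v`.  The space of the Tate classes of
   `P` over `K'` has at most the dimension `(p ^ s - 1) ∑ p ^ v (gcd(m, 2 D)' - gcd(m, D)')` (the sum over `g ∈ G`; `p ^ v` is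
   the power of `p` in `D`, and `n'` the part of `n` prime to `p`).  If this number is zero, in particular if `m` is odd, or
   if it is attained by divisors over `K'`, then the Tate conjecture holds for `S` over `K'`.  So it always holds over
   `K` itself.
2. If `2 ^ e` divides the degrees of all `g ∈ G` (this is always true for `e = 1`) then the Tate conjecture holds for `S`
   over *all* finite extensions `K'` of `K` of a degree not divisible by `2 ^ e`, and there are no Tate classes in `P`
   over `K'`: the Néron-Severi group over `K'` comes from the plane, the exceptional curves and the curves at infinity.

The Tate conjecture here is: for all `ℓ` (any Weil cohomology) the classes in `H^(2 j)` on which the Galois group of `K'`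
acts through the cyclotomic character are the combinations of classes of cycles over `K'`; for `j = 1` this is the
surjectivity of `c_S` over `K'`.  Nothing has to be known about numbers of points of `S` or of curves: one only has to
factor one polynomial in one variable over `κ`, the resultant of `(a(s) - a(t)) / (s - t)` and `(b(s) - b(t)) / (s - t)`
with respect to `s`, whose roots are the parameters of the double points.

*Geometrically simply connected surfaces.*  Let `a`, `b` have degrees `d - 1` and `d`, `d` divisible by `p ^ s`, and suppose
that the singular points of `C` are nodes, over `K` and over `κ` (this is the case if the resultant has no multiple roots,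
and the reductions of the nodes are different).  Then the closure of `C` in the projective plane is a nodal curve, smooth
at its only point at infinity, the covering is not ramified at infinity, and the fundamental group of the complement of
`C` is cyclic of order `d` (Zariski, Fulton, Deligne), so the surface `S` (the covering of the projective plane, with the
exceptional curves over the nodes) is geometrically simply connected.  It has `(d - 1)(d - 2) / 2` nodes, the dimension of
`P` is `(p ^ s - 1)(d - 1)(d - 2) / 2`, and the geometric genus is not bounded.

Example (the factorization was computed outside of Lean): let `a`, `b` be monic polynomials of degrees `5`, `6` with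
integral coefficients, `a ≡ t ^ 5 + 3 t ^ 2`, `b ≡ t ^ 6 + t ^ 5 + t ^ 4 + t ^ 3 - t` modulo `7`.  The `20` parameters of
the `10` double points are the roots of one irreducible polynomial over `𝔽_7`.  The triple covering `S` of the plane
branched along `C` is a geometrically simply connected surface of general type with `p_g = 3`, and `dim P = 20`.  The
Tate conjecture holds for `S` over all number fields of a degree which is not divisible by `4`, for all `ℓ`.

Proof.  Modulo `p` the zeta function of `C` over `κ` is `∏ (1 + T ^ D)` up to the factor `1 / (1 - T)` (`Run7/h735/RN`: the
`D`-th power of Frobenius exchanges the two parameters of the double points), and the characteristic polynomials of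
the Frobenius element `φ` on the parts of `P` for the characters are congruent to it modulo a prime above `p` (starting
file `Y134/Cyc/Tate`).  So the multiplicity of `q ^ m` as an eigenvalue of `φ ^ m` on `P` is at most the number in 1.  A Tate
class over `K'` is the sum of a combination of classes of cycles and of a class in `P`, both subspaces are stable under
`φ ^ m`, and the component in `P` is an eigenvector.  For 2, the Frobenius element permutes the embeddings of `K'`; as their
number is not divisible by `2 ^ e`, there is a cycle of a length `m` not divisible by `2 ^ e` (`exists_period_not_dvd`), so a
conjugate of `φ ^ m` is in the Galois group of `K'`, and the number in 1 is zero for this `m`.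
-/

set_option autoImplicit false

universe u

namespace Pool.Agent.Results.MP_1bad5e_ag.RationalBranchPlaces

open Polynomial Pool.Agent.H914 Pool.Agent.TH125.Gal Pool.Agent.Y130 Pool.Agent.Y134.TF
  Pool.Agent.Run7.h735.TP Pool.Agent.Run7.h735.NF Pool.Agent.Run7.h735.RN Pool.Agent.Run7.h735.NR

/-- **The Tate conjecture for surfaces which at one place are branched along a rational curve with non-split double
points.**  Let `κ` be the residue field of a place, with `q ≡ 1` modulo `p ^ s` elements, `p` odd, let `F(x, y) = 0` be the
curve with the parametrization `t ↦ (a(t), b(t))`, whose double points are not split: the parameters of the double points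
are the roots of the irreducible polynomials in `G`, of degrees `2 D`, and the two parameters of a double point are roots
of the same polynomial.  Let `S` be a smooth projective surface which at this place is the cyclic covering
`w ^ (p ^ s) = F(x, y)`, `S.P` being the part of `H^2` for the nontrivial characters.
(1) Over every extension with a place of degree `m` over the given one the space of Tate classes in `S.P` has at most the
dimension `(p ^ s - 1) ∑ p ^ v (gcd(m, 2 D)' - gcd(m, D)')`, and the Tate conjecture holds for `S` over the extension if this
number is zero or attained by divisors; it is zero for all odd `m`.
(2) If `S.P` is stable under the Galois group and `2 ^ e` divides the degrees of the polynomials in `G` then the Tate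
conjecture holds for `S` over all finite extensions of a degree not divisible by `2 ^ e`, over which there are no Tate
classes in `S.P`.
(3) In particular this is true for all extensions of odd degree. -/
theorem result {k : Type u} [Field k] {𝒱 : VarClass k} {ops : CycleOps 𝒱}
    (W : WeilCohomology.{u, 0} ops) [IsAlgClosed W.K] {Γ : Type} [Group Γ] (χ : Γ →* W.Kˣ)
    (S : PVar W Γ) (h : Cover χ S 1) {p s : ℕ} (hp : p.Prime) (hp2 : p ≠ 2) (hs : 1 ≤ s) (κ : Type)
    [Field κ] [Fintype κ] (a b : κ[X]) (G : Finset κ[X]) (hG : NonSplit a b G)
    (F : MvPolynomial (Fin 2) κ) (hF : IsImage F a b) :
    (BoundsForPlaces χ S p s κ F (nodeBound p s G) ∧ ∀ m : ℕ, Odd m → nodeBound p s G m = 0) ∧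
      (IsStable S → ∀ e : ℕ, (∀ g ∈ G, 2 ^ e ∣ g.natDegree) →
        NoneOverNotDvd χ S p s κ F (2 ^ e)) ∧
      (IsStable S → NoneOverNotDvd χ S p s κ F 2) := by
  refine ⟨⟨bounds_rational h hp hp2 hs hG hF, fun m hodd => ?_⟩,
    fun hst e he => none_rational h hp hp2 hs hG hF hst he, fun hst => ?_⟩
  · refine nodeBound_zero p s hodd.pos (fun g hg => hG.deg hg) fun g hg h3 => ?_
    have h4 : g.natDegree.factorization 2 ≠ 0 := by
      have h5 := hG.deg hg
      have h6 : 2 ∣ g.natDegree := ⟨_, h5.1⟩
      exact (Nat.prime_two.factorization_pos_of_dvd (by omega) h6).ne'
    exact (Nat.not_even_iff_odd.2 hodd) (even_iff_two_dvd.2 ((dvd_pow_self 2 h4).trans h3))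
  · have h1 := none_rational h hp hp2 hs hG hF hst (e := 1) fun g hg => by
      rw [pow_one]
      exact ⟨_, (hG.deg hg).1⟩
    rwa [pow_one] at h1

end Pool.Agent.Results.MP_1bad5e_ag.RationalBranchPlaces
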